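import Mathlib
import Pool.Agent.H.MP_e51b07_al.Count

set_option autoImplicit false
set_option maxHeartbeats 400000

namespace Pool.Agent.Results.MP_e51b07_al.TwoFive

open Finset MulAction Pool.Agent.H.MP_e51b07_al
open scoped Pointwise

/-- The common transversal probability `|DT_G(H,K)| / |H|^(G:H)`. -/
noncomputable def P {G : Type} [Group G] (H K : Subgroup G) : ℚ :=
  (Nat.card {T : Set G // (∀ x : G ⧸ H, ∃! t, t ∈ T ∧ QuotientGroup.mk t = x) ∧
    ∀ y : Quotient (QuotientGroup.rightRel K), ∃! t, t ∈ T ∧ Quotient.mk'' t = y} : ℚ) /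
    (Nat.card H : ℚ) ^ H.index

/-- The block diagonal matrix whose `i`-th block is `t i × t i` with all entries `1 / t i`. -/
def T {s : ℕ} (t : Fin s → ℕ) : Matrix (Σ i, Fin (t i)) (Σ i, Fin (t i)) ℚ :=
  Matrix.blockDiagonal' fun i => Matrix.of fun _ _ => 1 / (t i : ℚ)

theorem odd_fix {M Z : Type} [Group M] [MulAction M Z] (v : M) (z : Z) (S : Finset Z)
    (hS : #S ≤ 2) (h : ∀ n : ℕ, v ^ n • z ∈ S) {k : ℕ} (hk : v ^ 5 ^ k = 1) : v • z = z := by
  by_contra h1
  have h2 : v ^ 2 • z = z := by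
    by_contra h2
    refine absurd hS (not_le.2 (two_lt_card_iff.2 ⟨z, v • z, v ^ 2 • z, by simpa using h 0,
      by simpa using h 1, h 2, Ne.symm h1, Ne.symm h2, fun h3 => h1 ?_⟩))
    rw [pow_two, mul_smul, smul_left_cancel_iff] at h3
    exact h3.symm
  obtain ⟨m, hm⟩ : Odd (5 ^ k) := Odd.pow (by decide)
  have h3 : (v ^ 2) ^ m • z = z := pow_mem (show v ^ 2 ∈ stabilizer M z from h2) m
  apply h1
  calc v • z = v • (v ^ 2) ^ m • z := by rw [h3]
    _ = z := by rw [← mul_smul, ← pow_mul, ← pow_succ', ← hm, hk, one_smul]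

theorem main (G : Type) [Group G] [Finite G] (H K : Subgroup G) (hHK : Nat.card H = Nat.card K) :
    P H K ≠ 12 / 625 := by
  classical
  intro hP
  have := Fintype.ofFinite G
  have := Fintype.ofFinite (G ⧸ H)
  have := Fintype.ofFinite (Quotient (QuotientGroup.rightRel K))
  have := Fintype.ofFinite (orbitRel.Quotient K (G ⧸ H))
  obtain ⟨py, hpy, hpy'⟩ : ∃ py : G → Quotient (QuotientGroup.rightRel K), py = Quotient.mk'' ∧
      ∀ a b, py a = py b ↔ b * a⁻¹ ∈ K :=
    ⟨_, rfl, fun a b => Quotient.eq''.trans QuotientGroup.rightRel_apply⟩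
  have hs : Function.Surjective py := hpy ▸ Quotient.mk''_surjective
  obtain ⟨dX, hX⟩ : ∃ dX : G ⧸ H → orbitRel.Quotient K (G ⧸ H),
      ∀ x x', dX x = dX x' ↔ x ∈ orbit K x' := ⟨Quotient.mk'', fun a b => Quotient.eq''⟩
  obtain ⟨dY, hd⟩ : ∃ dY : Quotient (QuotientGroup.rightRel K) → orbitRel.Quotient K (G ⧸ H),
      ∀ g : G, dX (g : G ⧸ H) = dY (py g) := by
    refine ⟨Quotient.lift (fun g : G => dX (g : G ⧸ H)) fun a b h => ?_, fun g => by rw [hpy]; rfl⟩
    refine ((hX _ _).2 ⟨⟨b * a⁻¹, QuotientGroup.rightRel_apply.1 h⟩, ?_⟩).symm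
    change ((b * a⁻¹ * a : G) : G ⧸ H) = b
    simp
  have hc : 0 < Nat.card H := Nat.card_pos
  have hx : ∀ x : G ⧸ H, #{g : G | (g : G ⧸ H) = x} = Nat.card H := by
    intro x
    obtain ⟨a, rfl⟩ := QuotientGroup.mk_surjective x
    rw [Nat.card_eq_fintype_card, Fintype.card_subtype]
    refine card_bij' (fun g _ => a⁻¹ * g) (fun g _ => a * g) ?_ ?_ (by simp) (by simp)
    · intro g hg
      simp only [mem_filter, mem_univ, true_and] at hg ⊢
      exact QuotientGroup.eq.1 hg.symm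
    · intro g hg
      simp only [mem_filter, mem_univ, true_and] at hg ⊢
      exact QuotientGroup.mk_mul_of_mem a hg
  have hy : ∀ y, #{g : G | py g = y} = Nat.card H := by
    intro y
    obtain ⟨a, rfl⟩ := hs y
    rw [hHK, Nat.card_eq_fintype_card, Fintype.card_subtype]
    refine card_bij' (fun g _ => g * a⁻¹) (fun g _ => g * a) ?_ ?_ (by simp) (by simp)
    · intro g hg
      simp only [mem_filter, mem_univ, true_and] at hg ⊢
      exact (hpy' _ _).1 hg.symm
    · intro g hg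
      simp only [mem_filter, mem_univ, true_and] at hg ⊢
      exact ((hpy' _ _).2 (by simpa using hg)).symm
  have hYH : ∀ a b, dY (py a) = dY (py b) → ∃ h ∈ H, py (a * h) = py b := by
    intro a b h
    rw [← hd, ← hd, hX] at h
    obtain ⟨k, hk⟩ := h
    have hk' : ((k * b : G) : G ⧸ H) = a := hk
    exact ⟨_, QuotientGroup.eq.1 hk'.symm, (hpy' _ _).2 (by simp)⟩
  have hr : ∀ a b h, py (a * h) = py (b * h) ↔ py a = py b := fun a b h => by simp [hpy', mul_assoc]
  have hm : ∀ (x : G ⧸ H) y y', dY y = dY y' →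
      #{g : G | (g : G ⧸ H) = x ∧ py g = y} = #{g : G | (g : G ⧸ H) = x ∧ py g = y'} := by
    intro x y y' h
    obtain ⟨a, rfl⟩ := hs y
    obtain ⟨b, rfl⟩ := hs y'
    obtain ⟨u, hu, h2⟩ := hYH a b h
    refine card_bij' (fun g _ => g * u) (fun g _ => g * u⁻¹) ?_ ?_ (by simp) (by simp)
    · intro g hg
      simp only [mem_filter, mem_univ, true_and] at hg ⊢
      exact ⟨(QuotientGroup.mk_mul_of_mem g hu).trans hg.1, h2 ▸ (hr _ _ _).2 hg.2⟩
    · intro g hg
      simp only [mem_filter, mem_univ, true_and] at hg ⊢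
      exact ⟨(QuotientGroup.mk_mul_of_mem g (inv_mem hu)).trans hg.1,
        (hr _ _ u).1 (by simpa [h2] using hg.2)⟩
  have hf := formula QuotientGroup.mk py dX dY _ hd hc hx hy hm
  have ht := t_eq QuotientGroup.mk py dX dY _ hd hc hx hy
  have hn : H.index = Fintype.card (G ⧸ H) := by rw [Subgroup.index, Nat.card_eq_fintype_card]
  rw [P, ← hpy, hn, hf] at hP
  obtain ⟨⟨ω2, h2, h2'⟩, ⟨ω5, h5, h5'⟩, h1⟩ := shape _ hP
  have hst : ∀ x : G ⧸ H, (stabilizer K x).index = #{x' | dX x' = dX x} := by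
    intro x
    rw [index_stabilizer, ← Set.ncard_coe_finset]
    congr 1
    ext x'
    simp [hX]
  have : Fact (Nat.Prime 5) := ⟨by norm_num⟩
  obtain ⟨Q⟩ : Nonempty (Sylow 5 K) := inferInstance
  obtain ⟨B, hB⟩ : ∃ B : Finset (G ⧸ H), ∀ x, x ∈ B ↔ dX x ≠ ω5 := ⟨univ.filter fun x => dX x ≠ ω5, by simp⟩
  have hB2 : ∀ x ∈ B, #{x' | dX x' = dX x} ≤ 2 := fun x hx' => by
    rcases h1 (dX x) with k | k | k
    · omega
    · omega
    · exact absurd (h5' _ k) ((hB x).1 hx')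
  have F1 : ∀ v ∈ K, (∃ k, v ^ 5 ^ k = 1) → ∀ x ∈ B, v • x = x := by
    rintro v hv ⟨k, hk⟩ x hx'
    refine odd_fix v x _ (hB2 x hx') (fun n => ?_) hk
    simp only [mem_filter, mem_univ, true_and, hX]
    exact ⟨⟨v ^ n, pow_mem hv n⟩, rfl⟩
  have F2 : ∀ h ∈ H, (∃ k, h ^ 5 ^ k = 1) → ∀ a : G, (a : G ⧸ H) ∈ B → a * h * a⁻¹ ∈ K := by
    rintro h hh ⟨k, hk⟩ a ha
    have k1 := hB2 _ ha
    rw [ht] at k1
    have := odd_fix (Z := G ⧸ K) h ((a⁻¹ : G) : G ⧸ K)
      (image (fun y => ((y.out⁻¹ : G) : G ⧸ K)) {y | dY y = dX a}) (card_image_le.trans k1)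
      (fun n => ?_) hk
    · have k2 : ((h * a⁻¹ : G) : G ⧸ K) = (a⁻¹ : G) := this
      simpa [mul_assoc] using QuotientGroup.eq.1 k2.symm
    · refine mem_image.2 ⟨py (a * (h ^ n)⁻¹), ?_, ?_⟩
      · simp only [mem_filter, mem_univ, true_and, ← hd]
        rw [QuotientGroup.mk_mul_of_mem a (inv_mem (pow_mem hh n))]
      · change _ = ((h ^ n * a⁻¹ : G) : G ⧸ K)
        have k3 : py (py (a * (h ^ n)⁻¹)).out = py (a * (h ^ n)⁻¹) := by
          rw [hpy]; exact Quotient.out_eq' _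
        have k4 := (hpy' _ _).1 k3.symm
        rw [QuotientGroup.eq]
        simpa [mul_assoc] using k4
  have F3 : ∀ x, (∀ u : K, u ∈ Q → (u : G) • x = x) → x ∈ B := by
    intro x h
    rw [hB]
    rintro rfl
    have k1 : (Q : Subgroup K) ≤ stabilizer K x := fun u hu => h u hu
    have k2 := Subgroup.index_dvd_of_le k1
    rw [hst, h5] at k2
    exact Q.not_dvd_index k2
  have hQ : ∀ u : K, u ∈ Q → ∃ k, (u : G) ^ 5 ^ k = 1 := fun u hu => by
    obtain ⟨k, hk⟩ := Q.isPGroup' ⟨u, hu⟩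
    exact ⟨k, by simpa using congrArg (fun z : Q => ((z : K) : G)) hk⟩
  have hbl : IsBlock G (B : Set (G ⧸ H)) := by
    rw [isBlock_iff_smul_eq_of_mem]
    intro g x hx1 hx2
    obtain ⟨a, rfl⟩ := QuotientGroup.mk_surjective x
    refine Set.eq_of_subset_of_ncard_le ?_ (by rw [Set.ncard_smul_set])
    rintro _ ⟨b, hb, rfl⟩
    refine F3 _ fun u hu => ?_
    obtain ⟨k, hk⟩ := hQ u hu
    have k1 : ((u * (g * a) : G) : G ⧸ H) = (g * a : G) := F1 u u.2 ⟨k, hk⟩ _ hx2
    have k2 := F2 _ (QuotientGroup.eq.1 k1.symm) ⟨k, by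
      rw [← mul_assoc, ← inv_inv (g * a), inv_inv (g * a)⁻¹, conj_pow, hk]; simp⟩ a hx1
    have k3 : a * ((g * a)⁻¹ * (u * (g * a))) * a⁻¹ = g⁻¹ * u * g⁻¹⁻¹ := by group
    rw [k3] at k2
    have k4 := F1 _ k2 ⟨k, by rw [conj_pow, hk]; simp⟩ b hb
    calc (u : G) • g • b = g • ((g⁻¹ * u * g⁻¹⁻¹) • b) := by simp only [← mul_smul]; group
      _ = g • b := by rw [k4]
  obtain ⟨z, hz⟩ : ∃ z, dX z = ω2 := by
    obtain ⟨z, hz⟩ := card_pos.1 (h2 ▸ (by norm_num : 0 < 2))
    exact ⟨z, by simpa using hz⟩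
  have h25 : ω2 ≠ ω5 := fun h => by rw [h] at h2; omega
  have hcard : #B + 5 = Fintype.card (G ⧸ H) := by
    have : B = univ.filter fun x => ¬ dX x = ω5 := by
      ext x
      simp [hB]
    rw [this, ← h5, add_comm, card_filter_add_card_filter_not, card_univ]
  have hdv := hbl.ncard_dvd_card ⟨z, (hB z).2 (hz ▸ h25)⟩
  rw [Set.ncard_coe_finset, Nat.card_eq_fintype_card, ← hcard] at hdv
  have hge : 2 ≤ #B := h2 ▸ card_le_card fun x hx' => (hB x).2 (by
    rw [(mem_filter.1 hx').2]; exact h25)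
  have hfix : ∀ x ∈ B, dX x ≠ ω2 → K = stabilizer G x := by
    intro x k1 k2
    have k3 : K ≤ stabilizer G x := by
      intro v hv
      rcases h1 (dX x) with k | k | k
      · refine card_le_one.1 k _ ?_ _ (by simp)
        simp only [mem_filter, mem_univ, true_and, hX]
        exact ⟨⟨v, hv⟩, rfl⟩
      · exact absurd (h2' _ k) k2
      · exact absurd (h5' _ k) ((hB x).1 k1)
    refine Subgroup.eq_of_le_of_card_ge k3 (le_of_eq ?_)
    have k4 := (stabilizer G x).card_mul_index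
    rw [index_stabilizer_of_transitive, ← H.card_mul_index] at k4
    exact hHK ▸ Nat.eq_of_mul_eq_mul_right Nat.card_pos k4
  have hle : #B ≤ 4 := by
    have k1 : #{x ∈ B | dX x = ω2} ≤ 2 := h2 ▸ card_le_card fun x hx' => by
      simpa using (mem_filter.1 hx').2
    have k2 : #{x ∈ B | ¬ dX x = ω2} ≤ 2 := by
      rcases ({x ∈ B | ¬ dX x = ω2} : Finset _).eq_empty_or_nonempty with k | ⟨x0, k⟩
      · simp [k]
      obtain ⟨b, rfl⟩ := exists_smul_eq G x0 z
      rw [← h2]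
      refine card_le_card_of_injOn (fun x => b • x) (fun x hx' => ?_)
        fun x _ x' _ h => smul_left_cancel b h
      have k3 := mem_filter.1 (mem_coe.1 hx')
      have k4 := mem_filter.1 k
      have k5 : stabilizer K (b • x) = stabilizer K (b • x0) := by
        ext v
        change (v : G) ∈ stabilizer G (b • x) ↔ (v : G) ∈ stabilizer G (b • x0)
        rw [stabilizer_smul_eq_stabilizer_map_conj, stabilizer_smul_eq_stabilizer_map_conj,
          ← hfix x k3.1 k3.2, ← hfix x0 k4.1 k4.2]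
      simp only [coe_filter, mem_univ, true_and, Set.mem_ofPred_eq]
      apply h2'
      beta_reduce
      rw [← hst, k5, hst, hz, h2]
    have := card_filter_add_card_filter_not (s := B) (fun x => dX x = ω2)
    omega
  generalize #B = m at hdv hge hle
  interval_cases m <;> omega

theorem per {s : ℕ} (t : Fin s → ℕ) :
    (T t).permanent = ∏ i, ((t i).factorial : ℚ) / (t i : ℚ) ^ t i := by
  have h1 : ∀ a b, T t a b = if a.1 = b.1 then 1 / (t b.1 : ℚ) else 0 := by
    rintro ⟨i, a⟩ ⟨j, b⟩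
    by_cases h : i = j
    · subst h
      simp [T]
    · simp [T, Matrix.blockDiagonal'_apply_ne _ _ _ h, h]
  have h2 : ∀ i, #{a : Σ i, Fin (t i) | a.1 = i} = t i := by
    intro i
    rw [← Fintype.card_subtype, Fintype.card_congr (Equiv.sigmaSubtype i), Fintype.card_fin]
  have h3 := DomMulAct.stabilizer_card (Sigma.fst : (Σ i, Fin (t i)) → Fin s)
  simp only [Fintype.card_subtype, h2, funext_iff, Function.comp_apply] at h3
  simp only [Matrix.permanent, h1, prod_ite_zero, mem_univ, true_imp_iff]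
  rw [← sum_filter, sum_const, h3, prod_div_distrib, prod_div_distrib]
  simp [div_eq_mul_inv, Fintype.prod_sigma]

theorem result :
    (∃ (s : ℕ) (t : Fin s → ℕ), 1 ≤ s ∧ (∀ i, 1 ≤ t i) ∧
      ∀ (G : Type) [Group G] [Finite G] (H K : Subgroup G), Nat.card H = Nat.card K →
        P H K ≠ (T t).permanent) ∧
    (∃ (s : ℕ) (t : Fin s → ℕ), 1 ≤ s ∧ (∀ i, 1 ≤ t i) ∧ (∃ i, t i = 1) ∧
      ∀ (G : Type) [Group G] [Finite G] (H : Subgroup G), P H H ≠ (T t).permanent) := by
  have h : (T ![1, 2, 5]).permanent = 12 / 625 := by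
    rw [per, Fin.prod_univ_three]
    simp only [Matrix.cons_val]
    norm_num [Nat.factorial]
  exact ⟨⟨3, ![1, 2, 5], by norm_num, by decide, fun G _ _ H K hHK => h ▸ main G H K hHK⟩,
    ⟨3, ![1, 2, 5], by norm_num, by decide, ⟨0, rfl⟩, fun G _ _ H => h ▸ main G H H rfl⟩⟩

end Pool.Agent.Results.MP_e51b07_al.TwoFive
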